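import Pool.Agent.Lib.H94.HPow

/-!
# Bundles computing the higher Clifford indices of a smooth plane curve
-/

namespace Pool.Agent.Results.MP_571cb2_ag.HyperplaneOnly

open Module MvPolynomial Pool.Agent.Lib.H94 Pool.Agent.Lib.H94.SmoothPlaneCurve

variable {δ : ℕ}

lemma genus_eq (hδ : 5 ≤ δ) (C : SmoothPlaneCurve δ) :
    2 * ((C.genus : ℤ) - 1) = δ * (δ - 3) := by
  obtain ⟨m, rfl⟩ : ∃ m, δ = m + 2 := ⟨δ - 2, by omega⟩
  have h1 : C.genus = (m + 1) * m / 2 := rfl
  have h2 : 2 ∣ (m + 1) * m := by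
    rw [mul_comm]
    exact (Nat.even_mul_succ_self m).two_dvd
  have h3 : ((C.genus * 2 : ℕ) : ℤ) = (((m + 1) * m : ℕ) : ℤ) := by
    rw [h1, Nat.div_mul_cancel h2]
  push_cast at h3 ⊢
  linear_combination h3

lemma ss_iff (C : SmoothPlaneCurve δ) (E : C.VectorBundle) {n : ℕ} (hn : 1 ≤ n) {d : ℤ}
    (h : E.IsSemistable n d) (a b : ℂ) :
    ∀ N : ℤ → Submodule ℂ E.M, (∀ i, N i ≤ E.sec i) →
      (∀ (i : Fin 3) (l : ℤ) (m : E.M), m ∈ N l → C.newX a b i • m ∈ N (l + 1)) →
      ∀ (r : ℕ) (d' : ℤ), 0 < r →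
      (∃ k₀, ∀ i, k₀ ≤ i → (finrank ℂ (N i) : ℤ) = r * δ * i + d' + r * (1 - C.genus)) →
      d' * n ≤ d * r := by
  intro N hN hY r d' hr hrd
  have h1 := sh_mul_mem (-a) (-b) hY
  have h2 : sh (-a) (-b) (C.newX a b) = C.x := sh_sh a b C.x
  rw [h2] at h1
  have h3 := h ⟨N, hN, h1⟩ r d' hr hrd
  have hrq : (0 : ℚ) < r := by exact_mod_cast hr
  have hnq : (0 : ℚ) < n := by exact_mod_cast hn
  rw [div_le_div_iff₀ hrq hnq] at h3
  exact_mod_cast h3

lemma gradHyp (C : SmoothPlaneCurve δ) (E : C.VectorBundle) (a b : ℂ) :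
    GradHyp ℂ (C.newX a b) E.sec where
  isInternal := E.isInternal
  mul_mem := sh_mul_mem a b E.mul_mem
  finite := E.finite
  sat := sh_sat a b E.saturated

/-- the lower bound, and what happens in case of equality -/
lemma main (hδ : 5 ≤ δ) (C : SmoothPlaneCurve δ) {n : ℕ} (hn : 1 ≤ n) (E : C.VectorBundle)
    {d : ℤ} (hE : E.Contributes n d) {a b : ℂ} {F : MvPolynomial (Fin 3) ℂ}
    (H : RingHyp ℂ (C.newX a b) F δ) :
    (δ : ℚ) - 4 ≤ E.gamma n d ∧
      (E.gamma n d = (δ : ℚ) - 4 → ∃ g : Fin n → E.M, FreeGen ℂ (C.newX a b) E.sec g) := by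
  obtain ⟨hrk, hss, h2, hμ⟩ := hE
  exact module_main' H hδ E.torsionFree (gradHyp C E a b) hn (genus_eq hδ C) hrk
    (ss_iff C E hn hss a b) h2 (by push_cast; exact hμ)

/-- `H ^ n` contributes to `Cliff_n(C)` -/
lemma hyperplane_contributes (hδ : 5 ≤ δ) (C : SmoothPlaneCurve δ) {n : ℕ} (hn : 1 ≤ n) :
    (C.hyperplanePow n).Contributes n (n * δ) ∧
      (C.hyperplanePow n).gamma n (n * δ) = (δ : ℚ) - 4 := by
  obtain ⟨a, b, F, H⟩ := C.exists_ringHyp
  obtain ⟨h1, h2, h3⟩ := free_facts H hδ n (genus_eq hδ C)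
  have hsec : (C.hyperplanePow n).sec = freeSec ℂ (C.newX a b) n 1 := C.hyperplaneSec_eq a b n
  have hnq : (0 : ℚ) < n := by exact_mod_cast hn
  have hh0 : (C.hyperplanePow n).h0 = 3 * n := by
    rw [VectorBundle.h0, hsec]
    exact h2
  refine ⟨⟨?_, ?_, ?_, ?_⟩, ?_⟩
  · rw [VectorBundle.HasRankDegree, hsec]
    exact h1
  · intro E' r d' hr hrd
    have hrq : (0 : ℚ) < r := by exact_mod_cast hr
    rw [div_le_div_iff₀ hrq hnq]
    have h4 := h3 E'.sec (fun i => by
      have := E'.le i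
      rwa [hsec] at this) (sh_mul_mem (M := (C.hyperplanePow n).M) a b E'.mul_mem) r d' hrd
    exact_mod_cast h4
  · rw [hh0]; omega
  · have hg := genus_eq hδ C
    have hgq : 2 * ((C.genus : ℚ) - 1) = δ * (δ - 3) := by exact_mod_cast hg
    have h5 : (5 : ℚ) ≤ δ := by exact_mod_cast hδ
    push_cast
    rw [mul_div_cancel_left₀ _ hnq.ne']
    nlinarith
  · rw [VectorBundle.gamma, hh0]
    push_cast
    field_simp
    ring

/-- from generators to an isomorphism -/
lemma iso_of_freeGen (C : SmoothPlaneCurve δ) {n : ℕ} (E : C.VectorBundle)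
    {a b : ℂ} {F : MvPolynomial (Fin 3) ℂ} (H : RingHyp ℂ (C.newX a b) F δ)
    {g : Fin n → E.M} (hg : FreeGen ℂ (C.newX a b) E.sec g) :
    Nonempty (E.Iso (C.hyperplanePow n)) := by
  classical
  have hsec : (C.hyperplanePow n).sec = freeSec ℂ (C.newX a b) n 1 := C.hyperplaneSec_eq a b n
  have D := gradHyp C E a b
  -- the map
  let Φ : (Fin n → C.R) →ₗ[C.R] E.M := Fintype.linearCombination C.R g
  have hΦ : ∀ r, Φ r = ∑ l, r l • g l := fun r => Fintype.linearCombination_apply C.R g r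
  have hmem : ∀ (m : ℕ) (r : Fin n → C.R), r ∈ freeSec ℂ (C.newX a b) n 1 (m - 1) →
      Φ r ∈ E.sec (m - 1) := by
    intro m r hr
    rw [mem_freeSec] at hr
    rw [hΦ]
    refine Submodule.sum_mem _ fun l _ => ?_
    have := hr l
    rw [show (m : ℤ) - 1 + 1 = m by ring, mem_rpiece_nat] at this
    obtain ⟨G, hG, hG'⟩ := this
    rw [← hG']
    have := D.hom_mem hG (hg.mem l)
    rwa [show (-1 : ℤ) + m = m - 1 by ring] at this
  have hinj : Function.Injective Φ := by
    rw [injective_iff_map_eq_zero]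
    intro r hr
    choose P hP using fun l => H.surj (r l)
    -- the homogeneous components of the relation
    obtain ⟨N, hN⟩ : ∃ N : ℕ, ∀ l, (P l).totalDegree < N :=
      ⟨(Finset.univ.sup fun l => (P l).totalDegree) + 1, fun l =>
        Nat.lt_succ_of_le (Finset.le_sup (f := fun l => (P l).totalDegree) (Finset.mem_univ l))⟩
    have hPN : ∀ l, ∑ m ∈ Finset.range N, homogeneousComponent m (P l) = P l := by
      intro l
      conv_rhs => rw [← sum_homogeneousComponent (φ := P l)]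
      symm
      apply Finset.sum_subset
      · intro m hm
        rw [Finset.mem_range] at hm ⊢
        have := hN l
        omega
      · intro m _ hm
        rw [Finset.mem_range, not_lt] at hm
        exact homogeneousComponent_eq_zero _ _ (by omega)
    let s : ℕ → E.M := fun m => ∑ l, aeval (C.newX a b) (homogeneousComponent m (P l)) • g l
    have hs : ∀ m : ℕ, s m ∈ E.sec (m - 1) := by
      intro m
      refine Submodule.sum_mem _ fun l _ => ?_
      have := D.hom_mem (homogeneousComponent_isHomogeneous m (P l)) (hg.mem l)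
      rwa [show (-1 : ℤ) + m = m - 1 by ring] at this
    have hsum : ∑ m ∈ Finset.range N, s m = 0 := by
      rw [← hr, hΦ, Finset.sum_comm]
      refine Finset.sum_congr rfl fun l _ => ?_
      rw [← Finset.sum_smul, ← map_sum, hPN, hP]
    -- directness
    have hzero : ∀ m ∈ Finset.range N, s m = 0 := by
      let x : DirectSum ℤ fun i => E.sec i :=
        ∑ m ∈ Finset.range N, DirectSum.of (fun i => E.sec i) ((m : ℤ) - 1) ⟨s m, hs m⟩
      have hx : DirectSum.coeAddMonoidHom E.sec x = 0 := by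
        rw [map_sum, ← hsum]
        exact Finset.sum_congr rfl fun m _ => DirectSum.coeAddMonoidHom_of _ _ _
      have hx0 : x = 0 := E.isInternal.1 (by rw [hx, map_zero])
      intro m hm
      have h1 : (x ((m : ℤ) - 1) : E.M) = s m := by
        change (((∑ m ∈ Finset.range N, DirectSum.of (fun i => E.sec i) ((m : ℤ) - 1)
          ⟨s m, hs m⟩ : DirectSum ℤ fun i => E.sec i) ((m : ℤ) - 1) : E.sec ((m : ℤ) - 1)) :
            E.M) = s m
        rw [DirectSum.sum_apply, Finset.sum_eq_single m]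
        · rw [DirectSum.of_eq_same]
        · intro m' _ hne
          rw [DirectSum.of_eq_of_ne _ _ _ (by omega)]
        · intro h
          exact absurd hm h
      rw [← h1, hx0]
      rfl
    funext l
    rw [← hP l, ← hPN l, map_sum]
    refine Finset.sum_eq_zero fun m hm => ?_
    exact hg.indep m _ (fun l => homogeneousComponent_isHomogeneous m (P l)) (hzero m hm) l
  have hsurj' : ∀ (i : ℤ) (s : E.M), s ∈ E.sec i →
      ∃ r ∈ freeSec ℂ (C.newX a b) n 1 i, Φ r = s := by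
    intro i s hs
    rcases lt_or_ge i (-1) with hi | hi
    · rw [hg.bot i hi, Submodule.mem_bot] at hs
      exact ⟨0, Submodule.zero_mem _, by rw [map_zero, hs]⟩
    · obtain ⟨m, hm⟩ : ∃ m : ℕ, i = m - 1 := ⟨(i + 1).toNat, by omega⟩
      rw [hm] at hs ⊢
      obtain ⟨G, hG, rfl⟩ := hg.span m s hs
      refine ⟨fun l => aeval (C.newX a b) (G l), ?_, hΦ _⟩
      rw [mem_freeSec]
      intro l
      rw [show (m : ℤ) - 1 + 1 = m by ring, mem_rpiece_nat]
      exact ⟨G l, hG l, rfl⟩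
  have hsurj : Function.Surjective Φ := by
    intro s
    obtain ⟨x, rfl⟩ := E.isInternal.2 s
    induction x using DirectSum.induction_on with
    | zero => exact ⟨0, by rw [map_zero, map_zero]⟩
    | of i s =>
      rw [DirectSum.coeAddMonoidHom_of]
      obtain ⟨r, _, hr⟩ := hsurj' i s s.2
      exact ⟨r, hr⟩
    | add x y hx hy =>
      obtain ⟨r, hr⟩ := hx
      obtain ⟨r', hr'⟩ := hy
      exact ⟨r + r', by rw [map_add, map_add, hr, hr']⟩
  let e := LinearEquiv.ofBijective Φ ⟨hinj, hsurj⟩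
  have he : ∀ r, e r = Φ r := fun r => rfl
  refine ⟨⟨e.symm, fun i m => ?_⟩⟩
  rw [hsec]
  constructor
  · intro h
    have h1 : m = Φ (e.symm m) := by rw [← he, e.apply_symm_apply]
    rcases lt_or_ge i (-1) with hi | hi
    · have h2 : e.symm m = 0 := by
        funext l
        have := mem_freeSec.1 h l
        rwa [rpiece_neg (by omega), Submodule.mem_bot] at this
      rw [h1, h2, map_zero]
      exact Submodule.zero_mem _
    · obtain ⟨m', hm⟩ : ∃ m : ℕ, i = m - 1 := ⟨(i + 1).toNat, by omega⟩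
      rw [h1]
      rw [hm] at h ⊢
      exact hmem m' _ h
  · intro h
    obtain ⟨r, hr, rfl⟩ := hsurj' i m h
    have h5 : e.symm (Φ r) = r := e.symm_apply_apply r
    change e.symm (Φ r) ∈ freeSec ℂ (C.newX a b) n 1 i
    rw [h5]
    exact hr

/-- invariance under isomorphisms -/
lemma contributes_of_iso (C : SmoothPlaneCurve δ) {n : ℕ} {d : ℤ} (E E' : C.VectorBundle)
    (e : E.Iso E') (h : E'.Contributes n d) :
    E.Contributes n d ∧ E.gamma n d = E'.gamma n d := by
  have hC : ∀ (c : ℂ) (m : E.M), e.toLinearEquiv (c • m) = c • e.toLinearEquiv m := by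
    intro c m
    rw [← algebraMap_smul C.R c m, map_smul, algebraMap_smul]
  let f : E.M ≃ₗ[ℂ] E'.M :=
    { e.toLinearEquiv with
      map_smul' := hC }
  have hf : ∀ m, f m = e.toLinearEquiv m := fun _ => rfl
  have hmap : ∀ i, (E.sec i).map (f : E.M →ₗ[ℂ] E'.M) = E'.sec i := by
    intro i
    ext m'
    constructor
    · rintro ⟨m, hm, rfl⟩
      exact (e.mem_iff i m).2 hm
    · intro hm'
      refine ⟨f.symm m', ?_, f.apply_symm_apply m'⟩
      rw [SetLike.mem_coe, ← e.mem_iff, ← hf, f.apply_symm_apply]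
      exact hm'
  have hfin : ∀ i, finrank ℂ (E.sec i) = finrank ℂ (E'.sec i) := by
    intro i
    rw [← hmap i]
    exact (f.submoduleMap (E.sec i)).finrank_eq
  obtain ⟨h1, h2, h3, h4⟩ := h
  have hh0 : E.h0 = E'.h0 := hfin 0
  refine ⟨⟨?_, ?_, ?_, h4⟩, ?_⟩
  · obtain ⟨k₀, hk₀⟩ := h1
    exact ⟨k₀, fun k hk => by rw [hfin, hk₀ k hk]⟩
  · intro G r d' hr hrd
    refine h2 ⟨fun i => (G.sec i).map (f : E.M →ₗ[ℂ] E'.M), ?_, ?_⟩ r d' hr ?_
    · intro i
      rw [← hmap i]
      exact Submodule.map_mono (G.le i)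
    · rintro i l _ ⟨m, hm, rfl⟩
      refine ⟨C.x i • m, G.mul_mem i l m hm, ?_⟩
      change e.toLinearEquiv (C.x i • m) = C.x i • e.toLinearEquiv m
      rw [map_smul]
    · obtain ⟨k₀, hk₀⟩ := hrd
      refine ⟨k₀, fun k hk => ?_⟩
      rw [← hk₀ k hk]
      exact congrArg Nat.cast (f.submoduleMap (G.sec k)).finrank_eq.symm
  · rw [hh0]; exact h3
  · rw [VectorBundle.gamma, VectorBundle.gamma, hh0]

/-- **Main theorem.** Let `C` be a smooth plane curve of degree `δ ≥ 5` and `n ≥ 1`.  A vector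
bundle on `C` computes `Cliff_n(C)` if and only if it is isomorphic to `H ^ n`. -/
theorem result {δ : ℕ} (hδ : 5 ≤ δ) (C : SmoothPlaneCurve δ) {n : ℕ} (hn : 1 ≤ n)
    (E : C.VectorBundle) : E.Computes n ↔ Nonempty (E.Iso (C.hyperplanePow n)) := by
  obtain ⟨a, b, F, H⟩ := C.exists_ringHyp
  obtain ⟨hH, hHγ⟩ := hyperplane_contributes hδ C hn
  constructor
  · rintro ⟨d, hE, hleast⟩
    obtain ⟨h1, h2⟩ := main hδ C hn E hE H
    have h3 : E.gamma n d ≤ (δ : ℚ) - 4 := hleast.2 ⟨_, _, hH, hHγ.symm⟩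
    obtain ⟨g, hg⟩ := h2 (le_antisymm h3 h1)
    exact iso_of_freeGen C E H hg
  · rintro ⟨e⟩
    obtain ⟨h1, h2⟩ := contributes_of_iso C E _ e hH
    refine ⟨_, h1, ⟨E, _, h1, rfl⟩, ?_⟩
    rintro c ⟨E', d', hE', rfl⟩
    rw [h2, hHγ]
    exact (main hδ C hn E' hE' H).1

end Pool.Agent.Results.MP_571cb2_ag.HyperplaneOnly
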